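import Pool.Agent.Helper80.NFix.Topo

/-! The abstract fixed point argument. -/

open Filter Topology Set

namespace Pool.Agent.Helper80.NFix

theorem core {W : Type*} [AddCommGroup W] [Module ℝ W] [TopologicalSpace W] [T2Space W]
    {ι : Type*} (Q : ι → Seminorm ℝ W)
    (hball : ∀ i a r, IsClosed {z | Q i (z - a) ≤ r})
    (hfrag : ∀ i, ∀ ε > 0, ∀ K : Set W, IsCompact K → K.Nonempty →
      ∃ U, IsOpen U ∧ (U ∩ K).Nonempty ∧ ∀ x ∈ U ∩ K, ∀ y ∈ U ∩ K, Q i (x - y) ≤ ε)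
    (hsep : ∀ x, (∀ i, Q i x = 0) → x = 0)
    {S : Type*} [Semigroup S] [Nonempty S] (C : Set W) (hCne : C.Nonempty) (hC : IsCompact C)
    (hconv : Convex ℝ C)
    (T : S → C → C) (hmul : ∀ s t, T (s * t) = T s ∘ T t) (hcont : ∀ s, Continuous (T s))
    (hne : ∀ i s (x y : C), Q i ((T s x : W) - T s y) ≤ Q i ((x : W) - y))
    (hΛ : ∀ x0 : C, ∃ Λ : C(C, ℝ) →ₗ[ℝ] ℝ, Λ 1 = 1 ∧
      (∀ h : C(C, ℝ), (∀ s, 0 ≤ h (T s x0)) → 0 ≤ Λ h) ∧
      ∀ (a : S) (h : C(C, ℝ)), Λ (h.comp ⟨T a, hcont a⟩) = Λ h) :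
    ∃ x : C, ∀ s, T s x = x := by
  have : CompactSpace C := isCompact_iff_compactSpace.1 hC
  have : Nonempty C := hCne.to_subtype
  classical
  obtain ⟨X, -, hXne, hXcl, ⟨hXinv, hXconv⟩, hXmin⟩ := exists_min
    (fun X : Set C => (∀ s, ∀ x ∈ X, T s x ∈ X) ∧
      (∀ x ∈ X, ∀ y ∈ X, ∀ z : C, (z : W) ∈ segment ℝ (x : W) (y : W) → z ∈ X))
    (by
      intro c hc
      refine ⟨fun s x hx t ht => (hc t ht).1 s x (hx t ht), fun x hx y hy z hz t ht =>
        (hc t ht).2 x (hx t ht) y (hy t ht) z hz⟩)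
    univ univ_nonempty isClosed_univ ⟨fun _ _ _ => trivial, fun _ _ _ _ _ _ => trivial⟩
  obtain ⟨K, hKX, hKne, hKcl, hKinv, hKmin⟩ := exists_min
    (fun X : Set C => (∀ s, ∀ x ∈ X, T s x ∈ X))
    (by
      intro c hc s x hx t ht
      exact (hc t ht) s x (hx t ht)) X hXne hXcl hXinv
  obtain ⟨x0, hx0⟩ := hKne
  obtain ⟨Λ, h1, hpos0, hinvΛ⟩ := hΛ x0
  have hpos : ∀ h : C(C, ℝ), (∀ x ∈ K, 0 ≤ h x) → 0 ≤ Λ h := fun h hh =>
    hpos0 h fun s => hh _ (hKinv s _ hx0)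
  obtain ⟨hsupp, hTK⟩ := support T hcont K hKcl ⟨x0, hx0⟩ hKinv
    (fun K' h1 h2 h3 h4 => hKmin K' h1 h2 h3 h4) Λ h1 hpos hinvΛ
  have hdense : ∀ x ∈ K, K ⊆ closure (range fun s => T s x) := by
    intro x hx
    refine (hKmin (closure (range fun s => T s x)) ?_ ?_ isClosed_closure ?_).ge
    · exact closure_minimal (by rintro _ ⟨s, rfl⟩; exact hKinv s x hx) hKcl
    · exact (range_nonempty _).closure
    · intro s y hy
      have : MapsTo (T s) (range fun s => T s x) (range fun s => T s x) := by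
        rintro _ ⟨t, rfl⟩
        exact ⟨s * t, by simp only [hmul]; rfl⟩
      exact this.closure (hcont s) hy
  have htb : ∀ i, ∀ ε > 0, ∃ F : Finset C, (∀ x ∈ F, x ∈ K) ∧
      ∀ k ∈ K, ∃ x ∈ F, Q i ((k : W) - x) ≤ ε := by
    intro i
    refine totally_bounded_of_frag T hcont (fun x y => Q i ((x : W) - y))
      (fun x y => by rw [← map_neg_eq_map, neg_sub]) (fun x y z => ?_) (fun a r => ?_)
      (fun s x y => hne i s x y) K hKcl hKinv hdense Λ h1 hpos hinvΛ hsupp ?_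
    · have : (x : W) - z = (x - y) + (y - z) := by abel
      rw [this]
      exact map_add_le_add _ _ _
    · exact (hball i a r).preimage continuous_subtype_val
    · intro ε hε
      obtain ⟨U, hU, ⟨a, haU, haK⟩, hUd⟩ := hfrag i ε hε (Subtype.val '' K)
        (hKcl.isCompact.image continuous_subtype_val) ⟨_, mem_image_of_mem _ hx0⟩
      obtain ⟨b, hb, rfl⟩ := haK
      refine ⟨Subtype.val ⁻¹' U, hU.preimage continuous_subtype_val, ⟨b, haU, hb⟩, ?_⟩
      intro x hx y hy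
      exact hUd x ⟨hx.1, mem_image_of_mem _ hx.2⟩ y ⟨hy.1, mem_image_of_mem _ hy.2⟩
  by_cases hsub : K.Subsingleton
  · exact ⟨x0, fun s => hsub (hKinv s _ hx0) hx0⟩
  exfalso
  rw [not_subsingleton_iff] at hsub
  obtain ⟨x, hx, y, hy, hxy⟩ := hsub
  obtain ⟨i, hi⟩ : ∃ i, Q i ((x : W) - y) ≠ 0 := by
    by_contra hcon
    push Not at hcon
    exact hxy (Subtype.ext (sub_eq_zero.1 (hsep _ hcon)))
  set D : Set ℝ := {r | ∃ x ∈ K, ∃ y ∈ K, Q i ((x : W) - y) = r} with hD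
  have hDb : BddAbove D := by
    obtain ⟨F, hF, hFK⟩ := htb i 1 one_pos
    refine ⟨2 + ∑ f ∈ F, ∑ g ∈ F, Q i ((f : W) - g), ?_⟩
    rintro _ ⟨x, hx, y, hy, rfl⟩
    obtain ⟨f, hf, hxf⟩ := hFK x hx
    obtain ⟨g, hg, hyg⟩ := hFK y hy
    have e1 : Q i ((f : W) - g) ≤ ∑ f ∈ F, ∑ g ∈ F, Q i ((f : W) - g) :=
      (Finset.single_le_sum (f := fun g : C => Q i ((f : W) - g))
        (fun g _ => apply_nonneg _ _) hg).trans
        (Finset.single_le_sum (f := fun f : C => ∑ g ∈ F, Q i ((f : W) - g))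
          (fun f _ => Finset.sum_nonneg fun g _ => apply_nonneg _ _) hf)
    have e2 : (x : W) - y = (x - f) + ((f - g) + -(y - g)) := by abel
    have e3 := map_add_le_add (Q i) ((x : W) - f) ((f - g) + -(y - g))
    have e4 := map_add_le_add (Q i) ((f : W) - g) (-(y - g))
    rw [map_neg_eq_map] at e4
    rw [e2]
    linarith
  have hDmem : ∀ x ∈ K, ∀ y ∈ K, Q i ((x : W) - y) ≤ sSup D := fun x hx y hy =>
    le_csSup hDb ⟨x, hx, y, hy, rfl⟩
  have hdpos : 0 < sSup D :=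
    lt_of_lt_of_le (lt_of_le_of_ne (apply_nonneg _ _) hi.symm) (hDmem x hx y hy)
  obtain ⟨F, hF, hFK⟩ := htb i (sSup D / 2) (by positivity)
  have hFne : F.Nonempty := by
    obtain ⟨f, hf, _⟩ := hFK x hx
    exact ⟨f, hf⟩
  obtain ⟨n, hn⟩ : ∃ n : ℝ, n = F.card := ⟨_, rfl⟩
  have hnpos : 0 < n := by rw [hn]; exact_mod_cast hFne.card_pos
  have hXc : Convex ℝ (Subtype.val '' X) := by
    rw [convex_iff_segment_subset]
    rintro _ ⟨a, ha, rfl⟩ _ ⟨b, hb, rfl⟩ z hz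
    have hzC : z ∈ C := hconv.segment_subset a.2 b.2 hz
    exact ⟨⟨z, hzC⟩, hXconv a ha b hb ⟨z, hzC⟩ hz, rfl⟩
  have hw : ∑ _f ∈ F, (1 / n) = 1 := by
    rw [Finset.sum_const, nsmul_eq_mul, ← hn]
    field_simp
  obtain ⟨u, huX, hu⟩ := hXc.sum_mem (t := F) (w := fun _ => 1 / n) (z := fun f => (f : W))
    (fun _ _ => by positivity) hw (fun f hf => mem_image_of_mem _ (hKX (hF f hf)))
  set r : ℝ := sSup D - sSup D / (2 * n) with hr
  have hru : ∀ k ∈ K, Q i ((u : W) - k) ≤ r := by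
    intro k hk
    obtain ⟨f0, hf0, hkf0⟩ := hFK k hk
    have e1 : (u : W) - k = ∑ f ∈ F, (1 / n) • ((f : W) - k) := by
      simp only [smul_sub, Finset.sum_sub_distrib]
      rw [← Finset.sum_smul, hw, one_smul, hu]
    have e2 : Q i (∑ f ∈ F, (1 / n) • ((f : W) - k)) ≤ ∑ f ∈ F, Q i ((1 / n) • ((f : W) - k)) :=
      Finset.le_sum_of_subadditive (Q i) (map_zero _).le (map_add_le_add _) _ _
    have e3 : ∀ f ∈ F, Q i ((1 / n) • ((f : W) - k)) = 1 / n * Q i ((f : W) - k) := by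
      intro f _
      rw [map_smul_eq_mul, Real.norm_of_nonneg (by positivity)]
    rw [e1]
    refine e2.trans ?_
    rw [Finset.sum_congr rfl e3, ← Finset.mul_sum, ← Finset.add_sum_erase F _ hf0]
    have e4 : ∑ f ∈ F.erase f0, Q i ((f : W) - k) ≤ ∑ f ∈ F.erase f0, sSup D :=
      Finset.sum_le_sum fun f hf => hDmem f (hF f (Finset.mem_of_mem_erase hf)) k hk
    rw [Finset.sum_const, nsmul_eq_mul, Finset.card_erase_of_mem hf0,
      Nat.cast_sub hFne.card_pos, ← hn, Nat.cast_one] at e4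
    have e5 : Q i ((f0 : W) - k) ≤ sSup D / 2 := by
      rw [← map_neg_eq_map, neg_sub]; exact hkf0
    have e6 : r = 1 / n * (sSup D / 2 + (n - 1) * sSup D) := by
      rw [hr]; field_simp; ring
    rw [e6]
    exact mul_le_mul_of_nonneg_left (add_le_add e5 e4) (by positivity)
  set X0 : Set C := {x | x ∈ X ∧ ∀ k ∈ K, Q i ((x : W) - k) ≤ r} with hX0
  have hX0cl : IsClosed X0 := by
    have : X0 = X ∩ ⋂ k ∈ K, Subtype.val ⁻¹' {z : W | Q i (z - k) ≤ r} := by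
      ext z
      simp [hX0]
    rw [this]
    exact hXcl.inter (isClosed_biInter fun k _ => (hball i k r).preimage continuous_subtype_val)
  have hX0eq : X0 = X := by
    refine hXmin X0 (fun x hx => hx.1) ⟨u, huX, hru⟩ hX0cl ⟨?_, ?_⟩
    · intro s x hx
      refine ⟨hXinv s x hx.1, fun k hk => ?_⟩
      rw [← hTK s] at hk
      obtain ⟨k', hk', rfl⟩ := hk
      exact (hne i s x k').trans (hx.2 k' hk')
    · intro x hx y hy z hz
      refine ⟨hXconv x hx.1 y hy.1 z hz, fun k hk => ?_⟩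
      obtain ⟨a, b, ha, hb, hab, hz⟩ := hz
      have e1 : (z : W) - k = a • ((x : W) - k) + b • ((y : W) - k) := by
        rw [← hz, smul_sub, smul_sub, sub_add_sub_comm, ← add_smul, hab, one_smul]
      rw [e1]
      refine (map_add_le_add _ _ _).trans ?_
      rw [map_smul_eq_mul, map_smul_eq_mul, Real.norm_of_nonneg ha, Real.norm_of_nonneg hb]
      have e2 := mul_le_mul_of_nonneg_left (hx.2 k hk) ha
      have e3 := mul_le_mul_of_nonneg_left (hy.2 k hk) hb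
      have e4 : a * r + b * r = r := by rw [← add_mul, hab, one_mul]
      linarith
  have hle : sSup D ≤ r := by
    refine csSup_le ⟨_, ⟨x, hx, y, hy, rfl⟩⟩ ?_
    rintro _ ⟨x, hx, y, hy, rfl⟩
    have : x ∈ X0 := by rw [hX0eq]; exact hKX hx
    exact this.2 y hy
  have : 0 < sSup D / (2 * n) := by positivity
  linarith

end Pool.Agent.Helper80.NFix
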