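import Mathlib

open scoped BoundedContinuousFunction
open Set

namespace Pool.Agent.Helper80.NFix

universe u v w

section WAP

variable {S : Type u} [Semigroup S] [TopologicalSpace S] [SeparatelyContinuousMul S]

/-- The left translate `ℓ_a f (t) = f (a t)` of a bounded continuous function on a semitopological
semigroup. -/
def leftTranslate (a : S) (f : S →ᵇ ℝ) : S →ᵇ ℝ :=
  f.compContinuous ⟨fun t => a * t, SeparatelyContinuousMul.continuous_const_mul⟩

/-- The orbit `{ℓ_s f : s ∈ S}`, as a subset of the Banach space `C_b(S)` with its weak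
topology. -/
def weakOrbit (f : S →ᵇ ℝ) : Set (WeakSpace ℝ (S →ᵇ ℝ)) :=
  range fun s : S => toWeakSpace ℝ (S →ᵇ ℝ) (leftTranslate s f)

/-- `f ∈ WAP(S)`: the orbit of `f` is relatively weakly compact in `C_b(S)`. -/
def IsWAP (f : S →ᵇ ℝ) : Prop := IsCompact (closure (weakOrbit f))

/-- The restriction of `m` to `WAP(S)` is linear. -/
def IsLinearOnWAP (m : (S →ᵇ ℝ) → ℝ) : Prop :=
  (∀ f g, IsWAP f → IsWAP g → m (f + g) = m f + m g) ∧
    ∀ (c : ℝ) (f), IsWAP f → m (c • f) = c * m f

/-- The restriction of `m` to `WAP(S)` is a left invariant mean on `WAP(S)`. -/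
structure IsLeftInvariantMean (m : (S →ᵇ ℝ) → ℝ) : Prop where
  linear : IsLinearOnWAP m
  nonneg : ∀ f, IsWAP f → (∀ s, 0 ≤ f s) → 0 ≤ m f
  one : m 1 = 1
  invariant : ∀ (a : S) (f), IsWAP f → m (leftTranslate a f) = m f

end WAP

/-- `T` is a representation of `S` by self-maps of the topological space `Y`, which is separately
continuous and quasi-equicontinuous (all maps in the closure of `{T_s}` in `Y ^ Y` are
continuous). -/
structure IsRepresentation {S : Type u} [Semigroup S] [TopologicalSpace S] {Y : Type v}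
    [TopologicalSpace Y] (T : S → Y → Y) : Prop where
  mul : ∀ s t, T (s * t) = T s ∘ T t
  continuous : ∀ s, Continuous (T s)
  continuous_orbit : ∀ x, Continuous fun s => T s x
  quasi : ∀ g ∈ closure (range T), Continuous g

section Fixed

variable {𝕜 : Type} [NormedField 𝕜] {E : Type v} [AddCommGroup E] [Module 𝕜 E] [Module ℝ E]
  [TopologicalSpace E] {ι : Type w}

/-- The point of `E` underlying a point of the weak space `(E, σ(E, E*))`. -/
noncomputable def toVec (x : WeakSpace 𝕜 E) : E := (toWeakSpace 𝕜 E).symm x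

/-- `T` is `Q`-nonexpansive. -/
def IsNonexpansive (Q : SeminormFamily 𝕜 E ι) {S : Type u} {C : Set (WeakSpace 𝕜 E)}
    (T : S → C → C) : Prop :=
  ∀ (i : ι) (s : S) (x y : C),
    Q i (toVec (T s x).1 - toVec (T s y).1) ≤ Q i (toVec x.1 - toVec y.1)

/-- The fixed point property of `S` in the space `(E, Q)`: every weakly separately continuous,
weakly quasi-equicontinuous, `Q`-nonexpansive representation of `S` on a nonempty weakly compact
convex set has a common fixed point. -/
def FixedPointPropertyIn (S : Type u) [Semigroup S] [TopologicalSpace S]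
    (Q : SeminormFamily 𝕜 E ι) : Prop :=
  ∀ C : Set (WeakSpace 𝕜 E), C.Nonempty → IsCompact C → Convex ℝ C →
    ∀ T : S → C → C, IsRepresentation T → IsNonexpansive Q T → ∃ x : C, ∀ s, T s x = x

end Fixed

/-- Property (F): the fixed point property holds in every Hausdorff locally convex space `(E, Q)`
(real or complex). -/
def PropertyF (S : Type u) [Semigroup S] [TopologicalSpace S] : Prop :=
  ∀ (𝕜 : Type) [RCLike 𝕜] (E : Type v) [AddCommGroup E] [Module 𝕜 E] [Module ℝ E]
    [IsScalarTower ℝ 𝕜 E] [TopologicalSpace E] [IsTopologicalAddGroup E] [ContinuousSMul 𝕜 E]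
    [T2Space E] (ι : Type w) (Q : SeminormFamily 𝕜 E ι), WithSeminorms Q →
    FixedPointPropertyIn S Q

end Pool.Agent.Helper80.NFix
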