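import Mathlib

/-! Bounded convergence for continuous functionals on `C(Y, ℝ)`, `Y` compact, proved by Dini's theorem. -/

open Filter Topology Set

namespace Pool.Agent.Helper80.NFix

set_option linter.unusedSectionVars false

variable {Y : Type*} [TopologicalSpace Y] [CompactSpace Y]

/-- The set of values `ψ g` for `|g| ≤ f`. -/
def absVals (ψ : C(Y, ℝ) →L[ℝ] ℝ) (f : C(Y, ℝ)) : Set ℝ :=
  {r | ∃ g : C(Y, ℝ), (∀ y, |g y| ≤ f y) ∧ r = ψ g}

/-- Total variation of `ψ` on a nonnegative function. -/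
noncomputable def absP (ψ : C(Y, ℝ) →L[ℝ] ℝ) (f : C(Y, ℝ)) : ℝ := sSup (absVals ψ f)

lemma absVals_bound (ψ : C(Y, ℝ) →L[ℝ] ℝ) (f : C(Y, ℝ)) {r : ℝ} (hr : r ∈ absVals ψ f) :
    r ≤ ‖ψ‖ * ‖f‖ := by
  obtain ⟨g, hg, rfl⟩ := hr
  have h1 : ‖g‖ ≤ ‖f‖ := by
    rw [ContinuousMap.norm_le _ (norm_nonneg _)]
    intro y
    calc ‖g y‖ = |g y| := rfl
      _ ≤ f y := hg y
      _ ≤ |f y| := le_abs_self _
      _ = ‖f y‖ := rfl
      _ ≤ ‖f‖ := f.norm_coe_le_norm y
  calc ψ g ≤ |ψ g| := le_abs_self _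
    _ = ‖ψ g‖ := rfl
    _ ≤ ‖ψ‖ * ‖g‖ := ψ.le_opNorm g
    _ ≤ ‖ψ‖ * ‖f‖ := by gcongr

lemma absVals_bddAbove (ψ : C(Y, ℝ) →L[ℝ] ℝ) (f : C(Y, ℝ)) : BddAbove (absVals ψ f) :=
  ⟨‖ψ‖ * ‖f‖, fun _ hr => absVals_bound ψ f hr⟩

lemma absVals_nonempty (ψ : C(Y, ℝ) →L[ℝ] ℝ) {f : C(Y, ℝ)} (hf : ∀ y, 0 ≤ f y) :
    (absVals ψ f).Nonempty :=
  ⟨ψ 0, 0, fun y => by simpa using hf y, rfl⟩

lemma le_absP (ψ : C(Y, ℝ) →L[ℝ] ℝ) {f g : C(Y, ℝ)} (h : ∀ y, |g y| ≤ f y) : ψ g ≤ absP ψ f :=
  le_csSup (absVals_bddAbove ψ f) ⟨g, h, rfl⟩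

lemma absP_le (ψ : C(Y, ℝ) →L[ℝ] ℝ) {f : C(Y, ℝ)} (hf : ∀ y, 0 ≤ f y) :
    absP ψ f ≤ ‖ψ‖ * ‖f‖ :=
  csSup_le (absVals_nonempty ψ hf) fun _ hr => absVals_bound ψ f hr

lemma abs_le_absP (ψ : C(Y, ℝ) →L[ℝ] ℝ) {f g : C(Y, ℝ)} (h : ∀ y, |g y| ≤ f y) :
    |ψ g| ≤ absP ψ f := by
  rw [abs_le]
  constructor
  · have : ψ (-g) ≤ absP ψ f := le_absP ψ (fun y => by simpa using h y)
    rw [map_neg] at this
    linarith
  · exact le_absP ψ h

lemma absP_mono (ψ : C(Y, ℝ) →L[ℝ] ℝ) {f f' : C(Y, ℝ)} (hf : ∀ y, 0 ≤ f y)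
    (h : ∀ y, f y ≤ f' y) : absP ψ f ≤ absP ψ f' := by
  apply csSup_le_csSup (absVals_bddAbove ψ f') (absVals_nonempty ψ hf)
  rintro r ⟨g, hg, rfl⟩
  exact ⟨g, fun y => (hg y).trans (h y), rfl⟩

lemma absP_superadd (ψ : C(Y, ℝ) →L[ℝ] ℝ) {f f' : C(Y, ℝ)} (hf : ∀ y, 0 ≤ f y)
    (hf' : ∀ y, 0 ≤ f' y) : absP ψ f + absP ψ f' ≤ absP ψ (f + f') := by
  have h1 : ∀ g : C(Y, ℝ), (∀ y, |g y| ≤ f y) → ψ g + absP ψ f' ≤ absP ψ (f + f') := by
    intro g hg
    have : absP ψ f' ≤ absP ψ (f + f') - ψ g := by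
      apply csSup_le (absVals_nonempty ψ hf')
      rintro r ⟨g', hg', rfl⟩
      have : ψ (g + g') ≤ absP ψ (f + f') := le_absP ψ (fun y => by
        simp only [ContinuousMap.add_apply]
        exact (abs_add_le _ _).trans (add_le_add (hg y) (hg' y)))
      rw [map_add] at this
      linarith
    linarith
  have : absP ψ f ≤ absP ψ (f + f') - absP ψ f' := by
    apply csSup_le (absVals_nonempty ψ hf)
    rintro r ⟨g, hg, rfl⟩
    linarith [h1 g hg]
  linarith

lemma absP_subadd (ψ : C(Y, ℝ) →L[ℝ] ℝ) {f f' : C(Y, ℝ)} (hf : ∀ y, 0 ≤ f y)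
    (hf' : ∀ y, 0 ≤ f' y) : absP ψ (f + f') ≤ absP ψ f + absP ψ f' := by
  apply csSup_le (absVals_nonempty ψ (f := f + f') (fun y => by
    simp only [ContinuousMap.add_apply]; linarith [hf y, hf' y]))
  rintro r ⟨g, hg, rfl⟩
  set g1 : C(Y, ℝ) := (g ⊓ f) ⊔ (-f) with hg1
  have h1 : ∀ y, |g1 y| ≤ f y := by
    intro y
    simp only [hg1, ContinuousMap.sup_apply, ContinuousMap.inf_apply, ContinuousMap.neg_apply]
    rw [abs_le]
    refine ⟨le_max_right _ _, max_le (min_le_right _ _) (by linarith [hf y])⟩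
  have h2 : ∀ y, |(g - g1) y| ≤ f' y := by
    intro y
    have := hg y
    simp only [ContinuousMap.add_apply] at this
    simp only [hg1, ContinuousMap.sub_apply, ContinuousMap.sup_apply, ContinuousMap.inf_apply,
      ContinuousMap.neg_apply]
    have hfy := hf y
    have hfy' := hf' y
    rw [abs_le] at this ⊢
    rcases le_total (g y) (f y) with h | h
    · rw [min_eq_left h]
      rcases le_total (g y) (-f y) with h' | h'
      · rw [max_eq_right h']
        constructor <;> linarith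
      · rw [max_eq_left h']
        constructor <;> linarith
    · rw [min_eq_right h, max_eq_left (by linarith)]
      constructor <;> linarith
  have e : ψ g = ψ g1 + ψ (g - g1) := by rw [← map_add]; congr 1; abel
  rw [e]
  exact add_le_add (le_absP ψ h1) (le_absP ψ h2)

/-- Bounded convergence theorem for functionals on `C(Y, ℝ)`. -/
theorem tendsto_of_pointwise (ψ : C(Y, ℝ) →L[ℝ] ℝ) (f : ℕ → C(Y, ℝ)) (M : ℝ)
    (hM : ∀ n y, |f n y| ≤ M) (hf : ∀ y, Tendsto (fun n => f n y) atTop (𝓝 0)) :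
    Tendsto (fun n => ψ (f n)) atTop (𝓝 0) := by
  by_contra hcon
  -- extract a subsequence with values bounded away from `0`
  have : ∃ ε > 0, ∃ᶠ n in atTop, ε ≤ |ψ (f n)| := by
    by_contra hne
    push Not at hne
    apply hcon
    rw [Metric.tendsto_nhds]
    intro ε hε
    have := hne ε hε
    filter_upwards [this] with n hn
    simpa [Real.dist_eq] using hn
  obtain ⟨ε, hε, hfreq⟩ := this
  obtain ⟨φ, hφ, hφε⟩ := extraction_of_frequently_atTop hfreq
  set F : ℕ → C(Y, ℝ) := fun n => |f (φ n)| with hF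
  have hFapp : ∀ n y, F n y = |f (φ n) y| := fun n y => rfl
  have hF0 : ∀ n y, 0 ≤ F n y := fun n y => by rw [hFapp]; exact abs_nonneg _
  have hFM : ∀ n y, F n y ≤ M := fun n y => by rw [hFapp]; exact hM _ _
  have hFlim : ∀ y, Tendsto (fun n => F n y) atTop (𝓝 0) := by
    intro y
    have := (hf y).comp hφ.tendsto_atTop
    simpa [hFapp] using this.abs
  have hFε : ∀ n, ε ≤ absP ψ (F n) := fun n =>
    (hφε n).trans (abs_le_absP ψ (fun y => le_of_eq (hFapp n y).symm))
  by_cases hY : Nonempty Y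
  swap
  · have : ∀ g : C(Y, ℝ), g = 0 := fun g => by
      ext y; exact absurd ⟨y⟩ hY
    have h0 := hφε 0
    rw [this (f (φ 0)), map_zero, abs_zero] at h0
    linarith
  have hM0 : 0 ≤ M := by
    obtain ⟨y⟩ := hY
    exact (hF0 0 y).trans (hFM 0 y)
  -- sups over windows
  set G : ℕ → ℕ → C(Y, ℝ) := fun n j => partialSups (fun k => F (n + k)) j with hG
  have hGle : ∀ n j (c : C(Y, ℝ)), G n j ≤ c ↔ ∀ k ≤ j, F (n + k) ≤ c := by
    intro n j c
    exact partialSups_le_iff
  have hGmono : ∀ n m j j', n ≤ m → m + j ≤ n + j' → G m j ≤ G n j' := by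
    intro n m j j' h1 h2
    rw [hGle]
    intro k hk
    have : F (m + k) = F (n + (m - n + k)) := by congr 1; omega
    rw [this]
    exact le_partialSups_of_le (fun k => F (n + k)) (by omega)
  have hFG : ∀ n j, F n ≤ G n j := by
    intro n j
    have := le_partialSups_of_le (fun k => F (n + k)) (Nat.zero_le j)
    simpa using this
  have hG0 : ∀ n j y, 0 ≤ G n j y := fun n j y => (hF0 n y).trans (hFG n j y)
  have hGM : ∀ n j y, G n j y ≤ M := by
    intro n j y
    have : G n j ≤ ContinuousMap.const Y M := by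
      rw [hGle]
      intro k _ y
      exact hFM _ y
    exact this y
  have hGnorm : ∀ n j, ‖G n j‖ ≤ M := by
    intro n j
    rw [ContinuousMap.norm_le _ hM0]
    intro y
    rw [Real.norm_eq_abs, abs_of_nonneg (hG0 n j y)]
    exact hGM n j y
  have hPG : ∀ n j, absP ψ (G n j) ≤ ‖ψ‖ * M := fun n j =>
    (absP_le ψ (hG0 n j)).trans (by gcongr; exact hGnorm n j)
  set a : ℕ → ℝ := fun n => ⨆ j, absP ψ (G n j) with ha
  have hbdd : ∀ n, BddAbove (range fun j => absP ψ (G n j)) := fun n =>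
    ⟨‖ψ‖ * M, by rintro _ ⟨j, rfl⟩; exact hPG n j⟩
  have hle_a : ∀ n j, absP ψ (G n j) ≤ a n := fun n j => le_ciSup (hbdd n) j
  set δ : ℕ → ℝ := fun n => ε / 4 * (1 / 2) ^ n with hδ
  have hδpos : ∀ n, 0 < δ n := fun n => by positivity
  have hj : ∀ n, ∃ j, a n - δ n ≤ absP ψ (G n j) := by
    intro n
    have hlt : a n - δ n < ⨆ j, absP ψ (G n j) := by
      have := hδpos n
      show a n - δ n < a n
      linarith
    obtain ⟨j, hj⟩ := exists_lt_of_lt_ciSup hlt
    exact ⟨j, hj.le⟩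
  choose J hJ using hj
  set g : ℕ → C(Y, ℝ) := fun n => G n (J n) with hg
  have hg0 : ∀ n y, 0 ≤ g n y := fun n y => hG0 _ _ y
  -- differences
  have hdiff : ∀ i m, i ≤ m → absP ψ ((g m - g i) ⊔ 0) ≤ δ i := by
    intro i m him
    set K := max (m - i + J m) (J i) with hK
    have h1 : g m ≤ G i K := hGmono i m _ _ him (by omega)
    have h2 : g i ≤ G i K := hGmono i i _ _ le_rfl (by omega)
    have h3 : ∀ y, 0 ≤ ((g m - g i) ⊔ 0 : C(Y, ℝ)) y := fun y => by
      simp [ContinuousMap.sup_apply]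
    have h4 : absP ψ ((g m - g i) ⊔ 0) ≤ absP ψ (G i K - g i) := by
      apply absP_mono ψ h3
      intro y
      simp only [ContinuousMap.sup_apply, ContinuousMap.sub_apply, ContinuousMap.zero_apply]
      have a1 : g m y ≤ G i K y := h1 y
      have a2 : g i y ≤ G i K y := h2 y
      exact max_le (by linarith) (by linarith)
    have h5 : absP ψ (g i) + absP ψ (G i K - g i) ≤ absP ψ (G i K) := by
      have := absP_superadd ψ (f := g i) (f' := G i K - g i) (hg0 i) (fun y => by
        have a2 : g i y ≤ G i K y := h2 y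
        simp only [ContinuousMap.sub_apply]; linarith)
      have e : g i + (G i K - g i) = G i K := by abel
      rwa [e] at this
    have h6 := hle_a i K
    have h7 := hJ i
    have h8 : absP ψ (g i) = absP ψ (G i (J i)) := rfl
    linarith
  -- running infima
  set h : ℕ → C(Y, ℝ) := fun n => Nat.rec (g 0) (fun n x => x ⊓ g (n + 1)) n with hh
  have hh0 : h 0 = g 0 := rfl
  have hhs : ∀ n, h (n + 1) = h n ⊓ g (n + 1) := fun n => rfl
  have hhanti : Antitone h := antitone_nat_of_succ_le (fun n => by rw [hhs]; exact inf_le_left)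
  have hhg : ∀ n, h n ≤ g n := by
    intro n
    cases n with
    | zero => exact le_rfl
    | succ n => rw [hhs]; exact inf_le_right
  have hhnonneg : ∀ n y, 0 ≤ h n y := by
    intro n
    induction n with
    | zero => exact hg0 0
    | succ n ih =>
      intro y
      rw [hhs]
      simp only [ContinuousMap.inf_apply]
      exact le_min (ih y) (hg0 _ y)
  have hkey : ∀ n m, n ≤ m → absP ψ ((g m - h n) ⊔ 0) ≤ ∑ i ∈ Finset.range (n + 1), δ i := by
    intro n
    induction n with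
    | zero =>
      intro m hm
      simpa [hh0] using hdiff 0 m hm
    | succ n ih =>
      intro m hm
      have h1 := ih m (by omega)
      have h2 := hdiff (n + 1) m hm
      have h3 : ∀ y, 0 ≤ ((g m - h (n + 1)) ⊔ 0 : C(Y, ℝ)) y := fun y => by
        simp [ContinuousMap.sup_apply]
      have h4 : absP ψ ((g m - h (n + 1)) ⊔ 0) ≤
          absP ψ (((g m - h n) ⊔ 0) + ((g m - g (n + 1)) ⊔ 0)) := by
        apply absP_mono ψ h3
        intro y
        rw [hhs]
        simp only [ContinuousMap.sup_apply, ContinuousMap.sub_apply, ContinuousMap.zero_apply,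
          ContinuousMap.add_apply, ContinuousMap.inf_apply]
        rcases le_total (h n y) (g (n + 1) y) with h' | h'
        · rw [min_eq_left h']
          have := le_max_right (g m y - g (n + 1) y) 0
          linarith
        · rw [min_eq_right h']
          have := le_max_right (g m y - h n y) 0
          linarith
      have h5 := absP_subadd ψ (f := (g m - h n) ⊔ 0) (f' := (g m - g (n + 1)) ⊔ 0)
        (fun y => by simp [ContinuousMap.sup_apply]) (fun y => by simp [ContinuousMap.sup_apply])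
      rw [Finset.sum_range_succ]
      linarith
  have hsum : ∀ n, ∑ i ∈ Finset.range n, δ i ≤ ε / 2 := by
    intro n
    have : ∑ i ∈ Finset.range n, δ i = ε / 4 * ∑ i ∈ Finset.range n, (1 / 2 : ℝ) ^ i := by
      rw [Finset.mul_sum]
    rw [this]
    have h2 : ∑ i ∈ Finset.range n, (1 / 2 : ℝ) ^ i ≤ 2 := by
      have := summable_geometric_two.sum_le_tsum (Finset.range n) (fun i _ => by positivity)
      rwa [tsum_geometric_two] at this
    nlinarith
  have hPh : ∀ n, ε / 2 ≤ absP ψ (h n) := by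
    intro n
    have h1 : absP ψ (g n) ≤ absP ψ (h n + ((g n - h n) ⊔ 0)) := by
      apply absP_mono ψ (hg0 n)
      intro y
      simp only [ContinuousMap.sup_apply, ContinuousMap.sub_apply, ContinuousMap.zero_apply,
        ContinuousMap.add_apply]
      have := le_max_left (g n y - h n y) 0
      linarith
    have h2 := absP_subadd ψ (f := h n) (f' := (g n - h n) ⊔ 0) (hhnonneg n)
      (fun y => by simp [ContinuousMap.sup_apply])
    have h3 := hkey n n le_rfl
    have h4 := hsum (n + 1)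
    have h5 : ε ≤ absP ψ (g n) := (hFε n).trans (absP_mono ψ (hF0 n) (hFG n (J n)))
    linarith
  have hhlim : ∀ y, Tendsto (fun n => h n y) atTop (𝓝 0) := by
    intro y
    rw [Metric.tendsto_atTop]
    intro η hη
    have := (Metric.tendsto_atTop.1 (hFlim y)) (η / 2) (by positivity)
    obtain ⟨N, hN⟩ := this
    refine ⟨N, fun n hn => ?_⟩
    have h1 : g n y ≤ η / 2 := by
      have key : ∀ j, G n j y ≤ η / 2 := by
        intro j
        refine (partialSups_iff_forall (f := fun k => F (n + k))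
          (fun c : C(Y, ℝ) => c y ≤ η / 2) ?_).2 ?_
        · intro c c'
          simp only [ContinuousMap.sup_apply, sup_le_iff]
        intro k _
        have := hN (n + k) (by omega)
        rw [Real.dist_eq, sub_zero, abs_of_nonneg (hF0 _ _)] at this
        exact this.le
      exact key _
    rw [Real.dist_eq, sub_zero, abs_of_nonneg (hhnonneg n y)]
    have : h n y ≤ g n y := hhg n y
    linarith
  have hlim : Tendsto h atTop (𝓝 0) :=
    ContinuousMap.tendsto_of_antitone_of_pointwise hhanti (fun y => by simpa using hhlim y)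
  have hlim2 : Tendsto (fun n => ‖ψ‖ * ‖h n‖) atTop (𝓝 0) := by
    have := (hlim.norm).const_mul ‖ψ‖
    simpa using this
  have := ge_of_tendsto' hlim2 (fun n => (hPh n).trans (absP_le ψ (hhnonneg n)))
  linarith

end Pool.Agent.Helper80.NFix
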