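import Mathlib

/-! Fragmentability of weakly compact sets by a lower semicontinuous distance. -/

open Filter Topology Set

namespace Pool.Agent.Helper80.NFix

theorem frag_of {W : Type*} [TopologicalSpace W] (q : W → W → ℝ) (q_comm : ∀ x y, q x y = q y x)
    (q_tri : ∀ x y z, q x z ≤ q x y + q y z)
    (hsep : ∀ ε > 0, ∀ x y, ε < q x y → ∃ g : W → ℝ, Continuous g ∧
      (∀ u v, g u - g v ≤ q u v) ∧ ε < g x - g y)
    (hcount : ∀ D : Set W, D.Countable → ∃ c : Set W, c.Countable ∧
      ∀ y ∈ closure D, ∀ δ > 0, ∃ z ∈ c, q y z < δ) :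
    ∀ ε > 0, ∀ K : Set W, IsCompact K → K.Nonempty →
      ∃ U, IsOpen U ∧ (U ∩ K).Nonempty ∧ ∀ x ∈ U ∩ K, ∀ y ∈ U ∩ K, q x y ≤ ε := by
  intro ε hε K hK hKne
  by_contra hcon
  push Not at hcon
  -- children
  have hch : ∀ U : {U : Set W // IsOpen U ∧ (U ∩ K).Nonempty},
      ∃ V : Bool → {U : Set W // IsOpen U ∧ (U ∩ K).Nonempty}, (∀ b, (V b).1 ⊆ U.1) ∧
        ∀ u ∈ closure (V true).1, ∀ v ∈ closure (V false).1, ε ≤ q u v := by
    rintro ⟨U, hU, hne⟩
    obtain ⟨x, hx, y, hy, hxy⟩ := hcon U hU hne
    obtain ⟨g, hg, hgq, hgxy⟩ := hsep ε hε x y hxy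
    set δ := g x - g y - ε with hδ
    have hδpos : 0 < δ := by rw [hδ]; linarith
    have o1 : IsOpen (U ∩ {w | g x - δ / 2 < g w}) := hU.inter (isOpen_lt continuous_const hg)
    have o2 : IsOpen (U ∩ {w | g w < g y + δ / 2}) := hU.inter (isOpen_lt hg continuous_const)
    refine ⟨fun b => bif b then ⟨U ∩ {w | g x - δ / 2 < g w}, o1, ⟨x, ⟨hx.1, ?_⟩, hx.2⟩⟩
      else ⟨U ∩ {w | g w < g y + δ / 2}, o2, ⟨y, ⟨hy.1, ?_⟩, hy.2⟩⟩, ?_, ?_⟩
    · show g x - δ / 2 < g x
      linarith
    · show g y < g y + δ / 2
      linarith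
    · rintro (_ | _)
      · exact inter_subset_left
      · exact inter_subset_left
    · intro u hu v hv
      have hu' : g x - δ / 2 ≤ g u := by
        have : closure (U ∩ {w | g x - δ / 2 < g w}) ⊆ {w | g x - δ / 2 ≤ g w} :=
          closure_minimal (fun w hw => by
            have h2 : g x - δ / 2 < g w := hw.2
            exact h2.le) (isClosed_le continuous_const hg)
        exact this hu
      have hv' : g v ≤ g y + δ / 2 := by
        have : closure (U ∩ {w | g w < g y + δ / 2}) ⊆ {w | g w ≤ g y + δ / 2} :=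
          closure_minimal (fun w hw => by
            have h2 : g w < g y + δ / 2 := hw.2
            exact h2.le) (isClosed_le hg continuous_const)
        exact this hv
      have := hgq u v
      linarith
  choose child hsub hchild using hch
  set root : {U : Set W // IsOpen U ∧ (U ∩ K).Nonempty} :=
    ⟨univ, isOpen_univ, by rwa [univ_inter]⟩ with hroot
  set node : List Bool → {U : Set W // IsOpen U ∧ (U ∩ K).Nonempty} := fun l =>
    List.rec root (fun b _ U => child U b) l with hnode
  have node_cons : ∀ b l, node (b :: l) = child (node l) b := fun b l => rfl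
  have hpt : ∀ l, ∃ x, x ∈ (node l).1 ∩ K := fun l => (node l).2.2
  choose pt hptm using hpt
  set path : (ℕ → Bool) → ℕ → List Bool := fun σ n => Nat.rec [] (fun n l => σ n :: l) n with hpath
  have path_succ : ∀ σ n, path σ (n + 1) = σ n :: path σ n := fun σ n => rfl
  have hanti : ∀ σ m n, m ≤ n → (node (path σ n)).1 ⊆ (node (path σ m)).1 := by
    intro σ m n hmn
    induction n, hmn using Nat.le_induction with
    | base => exact subset_rfl
    | succ n _ ih =>
      rw [path_succ, node_cons]
      exact (hsub _ _).trans ih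
  have hy : ∀ σ : ℕ → Bool, ∃ y ∈ K, MapClusterPt y atTop fun n => pt (path σ n) := fun σ =>
    hK.exists_mapClusterPt (by
      simp only [le_principal_iff, mem_map]
      exact univ_mem' fun n => (hptm _).2)
  choose y hyK hy using hy
  have hyn : ∀ σ n, y σ ∈ closure (node (path σ n)).1 := by
    intro σ n
    rw [mem_closure_iff_clusterPt]
    refine (hy σ).clusterPt.mono ?_
    rw [le_principal_iff, mem_map]
    filter_upwards [eventually_ge_atTop n] with m hm
    exact hanti σ n m hm (hptm _).1
  have hyD : ∀ σ, y σ ∈ closure (range pt) := by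
    intro σ
    rw [mem_closure_iff_clusterPt]
    refine (hy σ).clusterPt.mono ?_
    rw [le_principal_iff, mem_map]
    exact univ_mem' fun n => mem_range_self _
  have hsepy : ∀ σ τ, σ ≠ τ → ε ≤ q (y σ) (y τ) := by
    intro σ τ hst
    have hex : ∃ n, σ n ≠ τ n := by
      by_contra hall
      push Not at hall
      exact hst (funext hall)
    classical
    have hn := Nat.find_spec hex
    have hmin : ∀ m < Nat.find hex, σ m = τ m := fun m hm => by
      by_contra hne
      exact Nat.find_min hex hm hne
    set n := Nat.find hex with hndef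
    have hpeq : ∀ m ≤ n, path σ m = path τ m := by
      intro m hm
      induction m with
      | zero => rfl
      | succ m ih => rw [path_succ, path_succ, hmin m hm, ih (Nat.le_of_succ_le hm)]
    have h1 := hyn σ (n + 1)
    have h2 := hyn τ (n + 1)
    rw [path_succ, node_cons] at h1 h2
    rw [← hpeq n le_rfl] at h2
    rcases hσ : σ n with _ | _ <;> rcases hτ : τ n with _ | _
    · exact absurd (hσ.trans hτ.symm) hn
    · rw [hσ] at h1; rw [hτ] at h2
      rw [q_comm]
      exact hchild _ _ h2 _ h1
    · rw [hσ] at h1; rw [hτ] at h2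
      exact hchild _ _ h1 _ h2
    · exact absurd (hσ.trans hτ.symm) hn
  obtain ⟨c, hc, hcy⟩ := hcount (range pt) (countable_range pt)
  have hz : ∀ σ, ∃ z ∈ c, q (y σ) z < ε / 2 := fun σ => hcy _ (hyD σ) _ (by positivity)
  choose z hzc hz using hz
  have hinj : Function.Injective fun σ => (⟨z σ, hzc σ⟩ : c) := by
    intro σ τ hst
    by_contra hne
    have h0 : z σ = z τ := congrArg Subtype.val hst
    have h1 := hsepy σ τ hne
    have h2 := q_tri (y σ) (z σ) (y τ)
    have h3 := hz σ
    have h4 := hz τ
    rw [← h0, q_comm] at h4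
    linarith
  have : Countable c := hc.to_subtype
  have hcn : Countable (ℕ → Bool) := hinj.countable
  obtain ⟨f, hf⟩ := hcn.exists_injective_nat
  classical
  refine Function.cantor_injective (fun s : Set ℕ => f fun n => decide (n ∈ s)) ?_
  intro s t hst
  have := hf hst
  ext n
  have h := congrFun this n
  simpa using h

end Pool.Agent.Helper80.NFix
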