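import Pool.Agent.Helper80.NFix.Dominated

/-! Grothendieck type lemma: for a compact set of continuous self-maps of a compact space,
`σ ↦ ψ (h ∘ σ)` is continuous for every bounded functional `ψ`. -/

open Filter Topology Set

namespace Pool.Agent.Helper80.NFix

variable {Y : Type*} [TopologicalSpace Y] [CompactSpace Y]

theorem continuous_comp_functional (A : Set (Y → Y)) (hA : IsCompact A)
    (hc : ∀ σ ∈ A, Continuous σ) (h : C(Y, ℝ)) (ψ : C(Y, ℝ) →L[ℝ] ℝ) :
    Continuous (fun σ : A => ψ (h.comp ⟨σ.1, hc σ.1 σ.2⟩)) := by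
  haveI : CompactSpace A := isCompact_iff_compactSpace.1 hA
  rw [continuous_iff_continuousAt]
  intro σ₀
  by_contra hcon
  set Ψ : A → C(Y, ℝ) := fun σ => h.comp ⟨σ.1, hc σ.1 σ.2⟩ with hΨ
  have hΨapp : ∀ (σ : A) y, Ψ σ y = h (σ.1 y) := fun σ y => rfl
  -- evaluation is continuous
  have hev : ∀ y, Continuous (fun σ : A => h (σ.1 y)) := fun y =>
    h.continuous.comp ((continuous_apply y).comp continuous_subtype_val)
  have hgap : ∃ ε > 0, ∃ᶠ σ in 𝓝 σ₀, ε ≤ |ψ (Ψ σ) - ψ (Ψ σ₀)| := by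
    by_contra hne
    push Not at hne
    apply hcon
    rw [ContinuousAt, Metric.tendsto_nhds]
    intro ε hε
    filter_upwards [hne ε hε] with σ hσ
    simpa [Real.dist_eq] using hσ
  obtain ⟨ε, hε, hfreq⟩ := hgap
  -- one step of the construction
  have step : ∀ (n : ℕ) (s : List A × Finset Y), ∃ t : A × Finset Y, s.2 ⊆ t.2 ∧
      (∀ y, ∃ x ∈ t.2, ∀ τ ∈ s.1, |h (τ.1 x) - h (τ.1 y)| < 1 / ((n : ℝ) + 1)) ∧
      (∀ x ∈ t.2, |h (t.1.1 x) - h (σ₀.1 x)| < 1 / ((n : ℝ) + 1)) ∧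
      ε ≤ |ψ (Ψ t.1) - ψ (Ψ σ₀)| := by
    intro n s
    have hn : (0 : ℝ) < 1 / ((n : ℝ) + 1) := by positivity
    have hV : ∀ y : Y, {x | ∀ τ ∈ s.1, |h (τ.1 x) - h (τ.1 y)| < 1 / ((n : ℝ) + 1)} ∈ 𝓝 y := by
      intro y
      have hfin : ∀ l : List A, {x | ∀ τ ∈ l, |h (τ.1 x) - h (τ.1 y)| < 1 / ((n : ℝ) + 1)} ∈ 𝓝 y := by
        intro l
        induction l with
        | nil => simp
        | cons a l ih =>
          have h1 : {x | |h (a.1 x) - h (a.1 y)| < 1 / ((n : ℝ) + 1)} ∈ 𝓝 y := by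
            have hcont : Continuous (fun x => |h (a.1 x) - h (a.1 y)|) :=
              ((h.continuous.comp (hc a.1 a.2)).sub continuous_const).abs
            exact (hcont.tendsto y).eventually (gt_mem_nhds (by simpa using hn))
          filter_upwards [ih, h1] with x hx1 hx2 τ hτ
          rcases List.mem_cons.1 hτ with rfl | hτ
          · exact hx2
          · exact hx1 τ hτ
      exact hfin s.1
    obtain ⟨F, hF⟩ := CompactSpace.elim_nhds_subcover _ hV
    classical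
    set X := s.2 ∪ F with hX
    have hU : ∀ X : Finset Y, ∀ᶠ σ in 𝓝 σ₀, ∀ x ∈ X, |h (σ.1 x) - h (σ₀.1 x)| < 1 / ((n : ℝ) + 1) := by
      intro X
      rw [Finset.eventually_all]
      intro x _
      have hcont : Continuous (fun σ : A => |h (σ.1 x) - h (σ₀.1 x)|) :=
        ((hev x).sub continuous_const).abs
      exact (hcont.tendsto σ₀).eventually (gt_mem_nhds (by simpa using hn))
    obtain ⟨σ, hσ1, hσ2⟩ := (hfreq.and_eventually (hU X)).exists
    refine ⟨(σ, X), Finset.subset_union_left, ?_, hσ2, hσ1⟩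
    intro y
    have hy : y ∈ (⊤ : Set Y) := trivial
    rw [← hF] at hy
    obtain ⟨x, hx, hyx⟩ := mem_iUnion₂.1 hy
    refine ⟨x, Finset.mem_union_right _ hx, fun τ hτ => ?_⟩
    rw [abs_sub_comm]
    exact hyx τ hτ
  choose t ht1 ht2 ht3 ht4 using step
  set st : ℕ → List A × Finset Y := fun n =>
    Nat.rec ([σ₀], ∅) (fun n s => ((t n s).1 :: s.1, (t n s).2)) n with hst
  have st0 : st 0 = ([σ₀], ∅) := rfl
  have sts : ∀ n, st (n + 1) = ((t n (st n)).1 :: (st n).1, (t n (st n)).2) := fun n => rfl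
  set σ : ℕ → A := fun n => (t n (st n)).1 with hσ
  set X : ℕ → Finset Y := fun n => (t n (st n)).2 with hX
  have hlmono : ∀ m n, m ≤ n → ∀ τ ∈ (st m).1, τ ∈ (st n).1 := by
    intro m n hmn
    induction hmn with
    | refl => exact fun τ hτ => hτ
    | step _ ih => exact fun τ hτ => by rw [sts]; exact List.mem_cons_of_mem _ (ih τ hτ)
  have hσ₀mem : ∀ n, σ₀ ∈ (st n).1 := fun n => hlmono 0 n (Nat.zero_le n) σ₀ (by simp [st0])
  have hσmem : ∀ i n, i < n → σ i ∈ (st n).1 := fun i n hin =>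
    hlmono (i + 1) n hin _ (by rw [sts]; exact List.mem_cons_self)
  have hXs : ∀ n, X n ⊆ X (n + 1) := fun n => by
    have := ht1 (n + 1) (st (n + 1))
    exact this
  have hXmono : ∀ m n, m ≤ n → X m ⊆ X n := by
    intro m n hmn
    induction hmn with
    | refl => exact subset_rfl
    | step _ ih => exact ih.trans (hXs _)
  have hinv : Tendsto (fun n : ℕ => 1 / ((n : ℝ) + 1)) atTop (𝓝 0) :=
    tendsto_one_div_add_atTop_nhds_zero_nat
  -- pointwise convergence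
  have hpt : ∀ y, Tendsto (fun n => h ((σ n).1 y)) atTop (𝓝 (h (σ₀.1 y))) := by
    intro y
    rw [tendsto_iff_ultrafilter]
    intro 𝒰 h𝒰
    have hlimσ : Tendsto σ 𝒰 (𝓝 ((𝒰.map σ).lim)) := (𝒰.map σ).le_nhds_lim
    set σi := (𝒰.map σ).lim with hσi
    have hx : ∀ n, ∃ x ∈ X n, ∀ τ ∈ (st n).1, |h (τ.1 x) - h (τ.1 y)| < 1 / ((n : ℝ) + 1) :=
      fun n => ht2 n (st n) y
    choose x hxX hxτ using hx
    have hlimx : Tendsto x 𝒰 (𝓝 ((𝒰.map x).lim)) := (𝒰.map x).le_nhds_lim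
    set xi := (𝒰.map x).lim with hxi
    have hinvU : Tendsto (fun n : ℕ => 1 / ((n : ℝ) + 1)) 𝒰 (𝓝 0) := hinv.mono_left h𝒰
    -- values at `xi`
    have hval : ∀ τ : A, (∀ᶠ n in atTop, τ ∈ (st n).1) → h (τ.1 xi) = h (τ.1 y) := by
      intro τ hτ
      have h1 : Tendsto (fun n => h (τ.1 (x n))) 𝒰 (𝓝 (h (τ.1 xi))) :=
        ((h.continuous.comp (hc τ.1 τ.2)).tendsto xi).comp hlimx
      have h2 : Tendsto (fun n => h (τ.1 (x n))) 𝒰 (𝓝 (h (τ.1 y))) := by
        rw [tendsto_iff_dist_tendsto_zero]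
        refine squeeze_zero' (Eventually.of_forall fun n => dist_nonneg) ?_ hinvU
        filter_upwards [h𝒰 hτ] with n hn
        rw [Real.dist_eq]
        exact (hxτ n τ hn).le
      exact tendsto_nhds_unique h1 h2
    have hv0 : h (σ₀.1 xi) = h (σ₀.1 y) := hval σ₀ (Eventually.of_forall hσ₀mem)
    have hvi : ∀ i, h ((σ i).1 xi) = h ((σ i).1 y) := fun i =>
      hval (σ i) (by filter_upwards [eventually_gt_atTop i] with n hn using hσmem i n hn)
    have hvinf : h (σi.1 xi) = h (σi.1 y) := by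
      have h1 : Tendsto (fun n => h ((σ n).1 xi)) 𝒰 (𝓝 (h (σi.1 xi))) :=
        ((hev xi).tendsto σi).comp hlimσ
      have h2 : Tendsto (fun n => h ((σ n).1 y)) 𝒰 (𝓝 (h (σi.1 y))) :=
        ((hev y).tendsto σi).comp hlimσ
      refine tendsto_nhds_unique h1 ?_
      simpa [hvi] using h2
    have hagree : ∀ m, h (σi.1 (x m)) = h (σ₀.1 (x m)) := by
      intro m
      have h1 : Tendsto (fun n => h ((σ n).1 (x m))) 𝒰 (𝓝 (h (σi.1 (x m)))) :=
        ((hev (x m)).tendsto σi).comp hlimσ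
      have h2 : Tendsto (fun n => h ((σ n).1 (x m))) 𝒰 (𝓝 (h (σ₀.1 (x m)))) := by
        rw [tendsto_iff_dist_tendsto_zero]
        refine squeeze_zero' (Eventually.of_forall fun n => dist_nonneg) ?_ hinvU
        filter_upwards [h𝒰 (eventually_ge_atTop m)] with n hn
        rw [Real.dist_eq]
        exact (ht3 n (st n) (x m) (hXmono m n hn (hxX m))).le
      exact tendsto_nhds_unique h1 h2
    have hfin : h (σi.1 xi) = h (σ₀.1 xi) := by
      have h1 : Tendsto (fun n => h (σi.1 (x n))) 𝒰 (𝓝 (h (σi.1 xi))) :=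
        ((h.continuous.comp (hc σi.1 σi.2)).tendsto xi).comp hlimx
      have h2 : Tendsto (fun n => h (σ₀.1 (x n))) 𝒰 (𝓝 (h (σ₀.1 xi))) :=
        ((h.continuous.comp (hc σ₀.1 σ₀.2)).tendsto xi).comp hlimx
      refine tendsto_nhds_unique h1 ?_
      simpa [hagree] using h2
    have hfinal : h (σi.1 y) = h (σ₀.1 y) := by rw [← hvinf, hfin, hv0]
    have h2 : Tendsto (fun n => h ((σ n).1 y)) 𝒰 (𝓝 (h (σi.1 y))) :=
      ((hev y).tendsto σi).comp hlimσ
    rwa [hfinal] at h2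
  -- conclusion by bounded convergence
  have hD := tendsto_of_pointwise ψ (fun n => Ψ (σ n) - Ψ σ₀) (2 * ‖h‖) (by
    intro n y
    simp only [ContinuousMap.sub_apply, hΨapp]
    have h1 := h.norm_coe_le_norm ((σ n).1 y)
    have h2 := h.norm_coe_le_norm (σ₀.1 y)
    rw [Real.norm_eq_abs] at h1 h2
    calc |h ((σ n).1 y) - h (σ₀.1 y)| ≤ |h ((σ n).1 y)| + |h (σ₀.1 y)| := abs_sub _ _
      _ ≤ 2 * ‖h‖ := by linarith) (by
    intro y
    simp only [ContinuousMap.sub_apply, hΨapp]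
    have := (hpt y).sub_const (h (σ₀.1 y))
    simpa using this)
  have hle : ∀ n, ε ≤ |ψ (Ψ (σ n) - Ψ σ₀)| := by
    intro n
    rw [map_sub]
    exact ht4 n (st n)
  have := ge_of_tendsto' hD.abs hle
  simp at this
  linarith

end Pool.Agent.Helper80.NFix
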