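import Mathlib

/-! Facts on seminorms and the weak topology of a locally convex space. -/

open Filter Topology Set

namespace Pool.Agent.Helper80.NFix

variable {𝕜 : Type*} [RCLike 𝕜] {E : Type*} [AddCommGroup E] [Module 𝕜 E] [Module ℝ E]
  [IsScalarTower ℝ 𝕜 E] [TopologicalSpace E] [IsTopologicalAddGroup E] [ContinuousSMul 𝕜 E]
  [LocallyConvexSpace ℝ E]

theorem isClosed_ball (p : Seminorm 𝕜 E) (hp : Continuous p) (a : E) (r : ℝ) :
    IsClosed (p.closedBall a r) := by
  have : p.closedBall a r = {x | p (x - a) ≤ r} := by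
    ext x; simp [Seminorm.mem_closedBall]
  rw [this]
  exact isClosed_le (hp.comp (continuous_id.sub continuous_const)) continuous_const

theorem isClosed_ball_weak (p : Seminorm 𝕜 E) (hp : Continuous p) (a : E) (r : ℝ) :
    IsClosed {z : WeakSpace 𝕜 E | p ((toWeakSpace 𝕜 E).symm z - a) ≤ r} := by
  have h1 : Convex ℝ (p.closedBall a r) := p.convex_closedBall a r
  have h2 := h1.toWeakSpace_closure 𝕜
  rw [(isClosed_ball p hp a r).closure_eq] at h2
  have h3 : {z : WeakSpace 𝕜 E | p ((toWeakSpace 𝕜 E).symm z - a) ≤ r} =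
      (toWeakSpace 𝕜 E) '' (p.closedBall a r) := by
    ext z
    constructor
    · intro hz
      exact ⟨(toWeakSpace 𝕜 E).symm z, p.mem_closedBall.2 hz, by simp⟩
    · rintro ⟨x, hx, rfl⟩
      have := p.mem_closedBall.1 hx
      simpa using this
  rw [h3, h2]
  exact isClosed_closure

theorem exists_sep (p : Seminorm 𝕜 E) (hp : Continuous p) (ε : ℝ) (hε : 0 < ε)
    (x y : WeakSpace 𝕜 E) (h : ε < p ((toWeakSpace 𝕜 E).symm x - (toWeakSpace 𝕜 E).symm y)) :
    ∃ g : WeakSpace 𝕜 E → ℝ, Continuous g ∧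
      (∀ u v, g u - g v ≤ p ((toWeakSpace 𝕜 E).symm u - (toWeakSpace 𝕜 E).symm v)) ∧
      ε < g x - g y := by
  have : ContinuousSMul ℝ E := IsScalarTower.continuousSMul 𝕜
  obtain ⟨f, u, hfu, hux⟩ := RCLike.geometric_hahn_banach_closed_point (𝕜 := 𝕜)
    (p.convex_closedBall 0 ε) (isClosed_ball p hp 0 ε)
    (x := (toWeakSpace 𝕜 E).symm x - (toWeakSpace 𝕜 E).symm y) (by
      rw [Seminorm.mem_closedBall, sub_zero, not_le]
      exact h)
  have hu : 0 < u := by
    have := hfu 0 (by rw [Seminorm.mem_closedBall]; simpa using hε.le)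
    simpa using this
  have hdom : ∀ v : E, RCLike.re (f v) ≤ u / ε * p v := by
    intro v
    rw [div_mul_eq_mul_div, le_div_iff₀ hε]
    have key : ∀ t : ℝ, p v < t → RCLike.re (f v) * ε ≤ u * t := by
      intro t ht
      have ht0 : 0 < t := lt_of_le_of_lt (apply_nonneg p v) ht
      have hz := hfu ((ε / t) • v) (by
        rw [Seminorm.mem_closedBall, sub_zero]
        have e1 : p ((ε / t) • v) = ε / t * p v := by
          have := map_smul_eq_mul (p.restrictScalars ℝ) (ε / t) v
          rw [Real.norm_of_nonneg (by positivity)] at this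
          exact this
        rw [e1, div_mul_eq_mul_div, div_le_iff₀ ht0]
        exact mul_le_mul_of_nonneg_left ht.le hε.le)
      have e2 : f ((ε / t) • v) = (ε / t) • f v := f.map_smul_of_tower _ _
      rw [e2, RCLike.smul_re, div_mul_eq_mul_div, div_lt_iff₀ ht0] at hz
      linarith
    have hlim : Tendsto (fun t : ℝ => u * t) (𝓝[>] (p v)) (𝓝 (u * p v)) :=
      ((continuous_const.mul continuous_id).tendsto _).mono_left nhdsWithin_le_nhds
    exact ge_of_tendsto hlim (eventually_nhdsWithin_of_forall fun t ht => key t ht)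
  have hfc : Continuous fun w : WeakSpace 𝕜 E => f ((toWeakSpace 𝕜 E).symm w) :=
    WeakBilin.eval_continuous (topDualPairing 𝕜 E).flip f
  refine ⟨fun w => ε / u * RCLike.re (f ((toWeakSpace 𝕜 E).symm w)),
    continuous_const.mul (RCLike.continuous_re.comp hfc), fun a b => ?_, ?_⟩
  · have := hdom ((toWeakSpace 𝕜 E).symm a - (toWeakSpace 𝕜 E).symm b)
    rw [map_sub, map_sub] at this
    show ε / u * RCLike.re (f ((toWeakSpace 𝕜 E).symm a)) -
      ε / u * RCLike.re (f ((toWeakSpace 𝕜 E).symm b)) ≤ _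
    rw [← mul_sub]
    calc ε / u * (RCLike.re (f ((toWeakSpace 𝕜 E).symm a)) -
          RCLike.re (f ((toWeakSpace 𝕜 E).symm b)))
        ≤ ε / u * (u / ε * p ((toWeakSpace 𝕜 E).symm a - (toWeakSpace 𝕜 E).symm b)) :=
          mul_le_mul_of_nonneg_left this (by positivity)
      _ = p ((toWeakSpace 𝕜 E).symm a - (toWeakSpace 𝕜 E).symm b) := by
          field_simp
  · show ε < ε / u * RCLike.re (f ((toWeakSpace 𝕜 E).symm x)) -
      ε / u * RCLike.re (f ((toWeakSpace 𝕜 E).symm y))
    rw [map_sub, map_sub] at hux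
    rw [← mul_sub, div_mul_eq_mul_div, lt_div_iff₀ hu]
    exact mul_lt_mul_of_pos_left hux hε

theorem exists_countable_dense (p : Seminorm 𝕜 E) (hp : Continuous p)
    (D : Set (WeakSpace 𝕜 E)) (hD : D.Countable) :
    ∃ c : Set (WeakSpace 𝕜 E), c.Countable ∧ ∀ y ∈ closure D, ∀ δ > 0, ∃ z ∈ c,
      p ((toWeakSpace 𝕜 E).symm y - (toWeakSpace 𝕜 E).symm z) < δ := by
  have : ContinuousSMul ℝ E := IsScalarTower.continuousSMul 𝕜
  set D' : Set E := (toWeakSpace 𝕜 E).symm '' D with hD'
  have hsep : TopologicalSpace.IsSeparable (Submodule.span ℝ D' : Set E) :=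
    (hD.image _).isSeparable.span
  obtain ⟨c', hc', hcD⟩ := hsep
  have hconv : Convex ℝ (Submodule.span ℝ D' : Set E) := (Submodule.span ℝ D').convex
  have hcl := hconv.toWeakSpace_closure 𝕜
  refine ⟨toWeakSpace 𝕜 E '' c', hc'.image _, fun y hy δ hδ => ?_⟩
  have hsub : D ⊆ toWeakSpace 𝕜 E '' (Submodule.span ℝ D' : Set E) := by
    intro d hd
    exact ⟨(toWeakSpace 𝕜 E).symm d, Submodule.subset_span (mem_image_of_mem _ hd), by simp⟩
  have hy' := closure_mono hsub hy
  rw [← hcl] at hy'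
  obtain ⟨y', hy', rfl⟩ := hy'
  have hy'' : y' ∈ closure c' := closure_minimal hcD isClosed_closure hy'
  obtain ⟨z, hz1, hz2⟩ := mem_closure_iff.1 hy'' {z | p (y' - z) < δ}
    (isOpen_lt (hp.comp (continuous_const.sub continuous_id)) continuous_const) (by
      simpa using hδ)
  exact ⟨toWeakSpace 𝕜 E z, mem_image_of_mem _ hz2, by simpa using hz1⟩

end Pool.Agent.Helper80.NFix
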