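import Pool.Agent.Helper80.NFix.Mean
import Pool.Agent.Helper80.NFix.Core
import Pool.Agent.Helper80.NFix.Frag
import Pool.Agent.Helper80.NFix.LCS

open Filter Topology Set
open scoped BoundedContinuousFunction

namespace Pool.Agent.Helper80.NFix

universe u v w

theorem main (S : Type u) [Semigroup S] [TopologicalSpace S] [SeparatelyContinuousMul S]
    (m : (S →ᵇ ℝ) → ℝ) (hm : IsLeftInvariantMean m) : PropertyF.{u, v, w} S := by
  intro 𝕜 _ E _ _ _ _ _ _ _ _ ι Q hQ C hCne hC hconv T hT hne
  have hS : Nonempty S := by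
    by_contra hemp
    rw [not_nonempty_iff] at hemp
    have hw : IsWAP (1 : S →ᵇ ℝ) := by
      have : weakOrbit (1 : S →ᵇ ℝ) = ∅ := range_eq_empty _
      rw [IsWAP, this, closure_empty]
      exact isCompact_empty
    have h0 : (0 : ℝ) • (1 : S →ᵇ ℝ) = 1 := by
      ext s
      exact hemp.elim s
    have h1 := hm.linear.2 0 1 hw
    rw [h0, hm.one, zero_mul] at h1
    exact one_ne_zero h1
  have hlc : LocallyConvexSpace ℝ E := hQ.toLocallyConvexSpace
  have hsm : ContinuousSMul ℝ E := IsScalarTower.continuousSMul 𝕜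
  have hsd : SeparatingDual 𝕜 E := ⟨fun x hx => by
    obtain ⟨f, hf⟩ := RCLike.geometric_hahn_banach_point_point (𝕜 := 𝕜) hx.symm
    refine ⟨f, fun h0 => ?_⟩
    rw [h0] at hf
    simp at hf⟩
  have : CompactSpace C := isCompact_iff_compactSpace.1 hC
  have hQc : ∀ i, Continuous (Q i) := hQ.continuous_seminorm
  set q : ι → Seminorm ℝ (WeakSpace 𝕜 E) := fun i =>
    { toFun := fun z => Q i ((toWeakSpace 𝕜 E).symm z)
      map_zero' := map_zero (Q i)
      add_le' := fun x y => map_add_le_add (Q i) _ _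
      neg' := fun x => map_neg_eq_map (Q i) _
      smul' := fun a x => map_smul_eq_mul ((Q i).restrictScalars ℝ) a _ } with hq
  have hqapp : ∀ i z, q i z = Q i ((toWeakSpace 𝕜 E).symm z) := fun i z => rfl
  have hqsub : ∀ i (x y : WeakSpace 𝕜 E), q i (x - y) =
      Q i ((toWeakSpace 𝕜 E).symm x - (toWeakSpace 𝕜 E).symm y) := fun i x y => rfl
  refine core q ?_ ?_ ?_ C hCne hC hconv T hT.mul hT.continuous ?_ ?_
  · intro i a r
    exact isClosed_ball_weak (Q i) (hQc i) ((toWeakSpace 𝕜 E).symm a) r
  · intro i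
    refine frag_of (fun x y => q i (x - y)) ?_ ?_ ?_ ?_
    · intro x y
      show q i (x - y) = q i (y - x)
      rw [← map_neg_eq_map, neg_sub]
    · intro x y z
      show q i (x - z) ≤ q i (x - y) + q i (y - z)
      have : x - z = (x - y) + (y - z) := by abel
      rw [this]
      exact map_add_le_add _ _ _
    · intro ε hε x y hxy
      exact exists_sep (Q i) (hQc i) ε hε x y hxy
    · intro D hD
      exact exists_countable_dense (Q i) (hQc i) D hD
  · intro x hx
    by_contra hx0
    have hx' : (toWeakSpace 𝕜 E).symm x ≠ 0 := fun h =>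
      hx0 ((toWeakSpace 𝕜 E).symm.injective (h.trans (map_zero _).symm))
    obtain ⟨i, hi⟩ := hQ.separating_of_T1 _ hx'
    exact hi (hx i)
  · intro i s x y
    exact hne i s x y
  · intro x0
    exact exists_functional m hm T hT x0

end Pool.Agent.Helper80.NFix
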