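import Pool.Agent.Helper80.NFix.Defs
import Pool.Agent.Helper80.NFix.Grothendieck

/-! From an invariant mean on `WAP(S)` to invariant functionals on `C(Y)`. -/

open Filter Topology Set
open scoped BoundedContinuousFunction

namespace Pool.Agent.Helper80.NFix

/-- Restriction of functions to an orbit, as a bounded operator. -/
noncomputable def orbitMap {S Y : Type*} [TopologicalSpace S] [TopologicalSpace Y] [CompactSpace Y]
    (γ : C(S, Y)) : C(Y, ℝ) →L[ℝ] (S →ᵇ ℝ) :=
  LinearMap.mkContinuous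
    { toFun := fun h => (BoundedContinuousFunction.mkOfCompact h).compContinuous γ
      map_add' := fun _ _ => rfl
      map_smul' := fun _ _ => rfl } 1 (by
    intro h
    rw [one_mul]
    refine (BoundedContinuousFunction.norm_le (norm_nonneg _)).2 fun s => ?_
    exact h.norm_coe_le_norm _)

theorem orbitMap_apply {S Y : Type*} [TopologicalSpace S] [TopologicalSpace Y] [CompactSpace Y]
    (γ : C(S, Y)) (h : C(Y, ℝ)) (s : S) : orbitMap γ h s = h (γ s) := rfl

theorem exists_functional {S : Type*} [Semigroup S] [TopologicalSpace S]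
    [SeparatelyContinuousMul S] (m : (S →ᵇ ℝ) → ℝ) (hm : IsLeftInvariantMean m)
    {Y : Type*} [TopologicalSpace Y] [CompactSpace Y] (T : S → Y → Y) (hT : IsRepresentation T)
    (x0 : Y) :
    ∃ Λ : C(Y, ℝ) →ₗ[ℝ] ℝ, Λ 1 = 1 ∧ (∀ h : C(Y, ℝ), (∀ s, 0 ≤ h (T s x0)) → 0 ≤ Λ h) ∧
      ∀ (a : S) (h : C(Y, ℝ)), Λ (h.comp ⟨T a, hT.continuous a⟩) = Λ h := by
  set γ : C(S, Y) := ⟨fun s => T s x0, hT.continuous_orbit x0⟩ with hγ
  have htr : ∀ (a : S) (h : C(Y, ℝ)),
      leftTranslate a (orbitMap γ h) = orbitMap γ (h.comp ⟨T a, hT.continuous a⟩) := by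
    intro a h
    ext t
    show h (T (a * t) x0) = h (T a (T t x0))
    rw [hT.mul]
    rfl
  have hWAP : ∀ h : C(Y, ℝ), IsWAP (orbitMap γ h) := by
    intro h
    have hA : IsCompact (closure (range T)) := isClosed_closure.isCompact
    have : CompactSpace (closure (range T)) := isCompact_iff_compactSpace.1 hA
    set Ψ : closure (range T) → WeakSpace ℝ (S →ᵇ ℝ) := fun σ =>
      toWeakSpace ℝ (S →ᵇ ℝ) (orbitMap γ (h.comp ⟨σ.1, hT.quasi σ.1 σ.2⟩)) with hΨ
    have hΨc : Continuous Ψ := by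
      refine WeakBilin.continuous_of_continuous_eval _ fun φ => ?_
      exact continuous_comp_functional (closure (range T)) hA hT.quasi h (φ.comp (orbitMap γ))
    refine (isCompact_range hΨc).closure_of_subset ?_
    rintro _ ⟨s, rfl⟩
    refine ⟨⟨T s, subset_closure ⟨s, rfl⟩⟩, ?_⟩
    simp only [hΨ, htr]
  refine ⟨{ toFun := fun h => m (orbitMap γ h), map_add' := fun f g => ?_,
            map_smul' := fun c f => ?_ }, ?_, fun h hh => ?_, fun a h => ?_⟩
  · rw [map_add]
    exact hm.linear.1 _ _ (hWAP f) (hWAP g)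
  · rw [map_smul]
    exact hm.linear.2 c _ (hWAP f)
  · exact hm.one
  · exact hm.nonneg _ (hWAP h) fun s => hh s
  · show m (orbitMap γ (h.comp ⟨T a, hT.continuous a⟩)) = m (orbitMap γ h)
    rw [← htr, hm.invariant a _ (hWAP h)]

end Pool.Agent.Helper80.NFix
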