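import Mathlib

/-! Purely topological part: minimal sets, supports of invariant functionals, total boundedness. -/

open Filter Topology Set

namespace Pool.Agent.Helper80.NFix

theorem exists_min {Y : Type*} [TopologicalSpace Y] [CompactSpace Y] (P : Set Y → Prop)
    (hP : ∀ c : Set (Set Y), (∀ s ∈ c, P s) → P (⋂₀ c)) (X0 : Set Y) (h0 : X0.Nonempty)
    (hcl : IsClosed X0) (hP0 : P X0) :
    ∃ X ⊆ X0, X.Nonempty ∧ IsClosed X ∧ P X ∧
      ∀ X' ⊆ X, X'.Nonempty → IsClosed X' → P X' → X' = X := by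
  obtain ⟨m, hm0, hm⟩ := zorn_superset_nonempty {X : Set Y | X.Nonempty ∧ IsClosed X ∧ P X}
    (by
      intro c hc hchain hne
      refine ⟨⋂₀ c, ⟨?_, isClosed_sInter fun s hs => (hc hs).2.1, hP c fun s hs => (hc hs).2.2⟩,
        fun s hs => sInter_subset_of_mem hs⟩
      have : Nonempty c := hne.to_subtype
      rw [sInter_eq_iInter]
      refine IsCompact.nonempty_iInter_of_directed_nonempty_isCompact_isClosed
        (fun i : c => (i : Set Y)) ?_ (fun i => (hc i.2).1)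
        (fun i => (hc i.2).2.1.isCompact) (fun i => (hc i.2).2.1)
      intro i j
      rcases hchain.total i.2 j.2 with h | h
      · exact ⟨i, subset_rfl, h⟩
      · exact ⟨j, h, subset_rfl⟩) X0 ⟨h0, hcl, hP0⟩
  refine ⟨m, hm0, hm.prop.1, hm.prop.2.1, hm.prop.2.2, fun X' hX' hne hcl' hP' => ?_⟩
  exact subset_antisymm hX' (hm.le_of_le ⟨hne, hcl', hP'⟩ hX')

variable {Y : Type*} [TopologicalSpace Y] [CompactSpace Y] [T2Space Y] {S : Type*}

/-- The support argument. -/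
theorem support (T : S → Y → Y) (hcont : ∀ s, Continuous (T s)) (K : Set Y) (hK : IsClosed K)
    (hKne : K.Nonempty) (hinv : ∀ s, ∀ x ∈ K, T s x ∈ K)
    (hmin : ∀ K' ⊆ K, K'.Nonempty → IsClosed K' → (∀ s, ∀ x ∈ K', T s x ∈ K') → K' = K)
    (Λ : C(Y, ℝ) →ₗ[ℝ] ℝ) (h1 : Λ 1 = 1) (hpos : ∀ h : C(Y, ℝ), (∀ x ∈ K, 0 ≤ h x) → 0 ≤ Λ h)
    (hinvΛ : ∀ (a : S) (h : C(Y, ℝ)), Λ (h.comp ⟨T a, hcont a⟩) = Λ h) :
    (∀ h : C(Y, ℝ), (∀ y, 0 ≤ h y) → (∃ x ∈ K, 0 < h x) → 0 < Λ h) ∧ ∀ s, T s '' K = K := by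
  have hsupp : ∀ h : C(Y, ℝ), (∀ y, 0 ≤ h y) → (∃ x ∈ K, 0 < h x) → 0 < Λ h := by
    set K' : Set Y := {x | x ∈ K ∧ ∀ h : C(Y, ℝ), (∀ y, 0 ≤ h y) → 0 < h x → 0 < Λ h} with hK'
    have hsub : K' ⊆ K := fun x hx => hx.1
    have hclosed : IsClosed K' := by
      have : K' = K ∩ ⋂ (h : C(Y, ℝ)) (_ : (∀ y, 0 ≤ h y) ∧ ¬ 0 < Λ h), {x | h x ≤ 0} := by
        ext x
        simp only [hK', mem_ofPred_eq, mem_inter_iff, mem_iInter]
        refine and_congr_right fun _ => forall_congr' fun h => ?_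
        constructor
        · intro H hh
          by_contra hcon
          exact hh.2 (H hh.1 (not_le.1 hcon))
        · intro H hh hx
          by_contra hcon
          exact absurd hx (not_lt.2 (H ⟨hh, hcon⟩))
      rw [this]
      refine hK.inter (isClosed_iInter fun h => isClosed_iInter fun _ => ?_)
      exact isClosed_le h.continuous continuous_const
    have hne : K'.Nonempty := by
      by_contra hempty
      rw [not_nonempty_iff_eq_empty] at hempty
      have hex : ∀ x : K, ∃ h : C(Y, ℝ), (∀ y, 0 ≤ h y) ∧ 0 < h x ∧ ¬ 0 < Λ h := by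
        intro x
        have hx : (x : Y) ∉ K' := by simp [hempty]
        simp only [hK', mem_ofPred_eq, not_and, not_forall] at hx
        obtain ⟨h, hh1, hh2, hh3⟩ := hx x.2
        exact ⟨h, hh1, hh2, hh3⟩
      choose f hf1 hf2 hf3 using hex
      obtain ⟨t, ht⟩ := hK.isCompact.elim_finite_subcover (fun x : K => {y | 0 < f x y})
        (fun x => isOpen_lt continuous_const (f x).continuous)
        (fun y hy => mem_iUnion.2 ⟨⟨y, hy⟩, hf2 ⟨y, hy⟩⟩)
      set H : C(Y, ℝ) := ∑ x ∈ t, f x with hH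
      have hHpos : ∀ y ∈ K, 0 < H y := by
        intro y hy
        obtain ⟨x, hx, hxy⟩ := mem_iUnion₂.1 (ht hy)
        rw [hH, ContinuousMap.sum_apply]
        exact Finset.sum_pos' (fun i _ => hf1 i y) ⟨x, hx, hxy⟩
      obtain ⟨z, hz, hzmin⟩ := hK.isCompact.exists_isMinOn hKne H.continuous.continuousOn
      have hc := hHpos z hz
      have h2 : 0 ≤ Λ (H - (H z) • (1 : C(Y, ℝ))) := by
        refine hpos _ fun x hx => ?_
        have := hzmin hx
        simp only [mem_ofPred_eq] at this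
        simp only [ContinuousMap.sub_apply, ContinuousMap.smul_apply, ContinuousMap.one_apply,
          smul_eq_mul, mul_one]
        linarith
      rw [map_sub, map_smul, h1, smul_eq_mul, mul_one] at h2
      have h3 : Λ H ≤ 0 := by
        rw [hH, map_sum]
        exact Finset.sum_nonpos fun x _ => not_lt.1 (hf3 x)
      linarith
    have hinv' : ∀ s, ∀ x ∈ K', T s x ∈ K' := by
      intro s x hx
      refine ⟨hinv s x hx.1, fun h hh hpx => ?_⟩
      rw [← hinvΛ s h]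
      exact hx.2 _ (fun y => hh _) hpx
    have heq := hmin K' hsub hne hclosed hinv'
    rintro h hh ⟨x, hx, hpx⟩
    rw [← heq] at hx
    exact hx.2 h hh hpx
  refine ⟨hsupp, fun s => ?_⟩
  refine subset_antisymm (by rintro _ ⟨x, hx, rfl⟩; exact hinv s x hx) fun x hx => ?_
  by_contra hxn
  have hcl : IsClosed (T s '' K) := (hK.isCompact.image (hcont s)).isClosed
  obtain ⟨f, hf0, hf1, hf⟩ := exists_continuous_zero_one_of_isClosed hcl (isClosed_singleton (x := x))
    (disjoint_singleton_right.2 hxn)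
  have hpos1 : 0 < Λ f := hsupp f (fun y => (hf y).1) ⟨x, hx, by
    rw [hf1 (mem_singleton x)]; exact zero_lt_one⟩
  have h2 : 0 ≤ Λ (-(f.comp ⟨T s, hcont s⟩)) := by
    refine hpos _ fun y hy => ?_
    have : f (T s y) = 0 := hf0 (mem_image_of_mem _ hy)
    simp [this]
  rw [map_neg, hinvΛ] at h2
  linarith

/-- Pairwise disjoint translates of a set of positive mass: impossible infinitely often. -/
theorem no_disjoint (Λ : C(Y, ℝ) →ₗ[ℝ] ℝ) (h1 : Λ 1 = 1)
    (hpos : ∀ h : C(Y, ℝ), (∀ x, 0 ≤ h x) → 0 ≤ Λ h) (B : ℕ → Set Y) (hB : ∀ n, IsClosed (B n))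
    (hdisj : ∀ m n, m < n → Disjoint (B m) (B n)) (c : ℝ) (hc : 0 < c)
    (hmass : ∀ n (h : C(Y, ℝ)), (∀ x, 0 ≤ h x) → (∀ x ∈ B n, 1 ≤ h x) → c ≤ Λ h) : False := by
  obtain ⟨n, hn⟩ := exists_nat_gt (1 / c)
  have hnc : 1 < n * c := by rwa [div_lt_iff₀ hc] at hn
  have hd : ∀ m k, m ≠ k → Disjoint (B m) (B k) := by
    intro m k hmk
    rcases lt_or_gt_of_ne hmk with h | h
    · exact hdisj _ _ h
    · exact (hdisj _ _ h).symm
  have hg : ∀ i, ∃ g : C(Y, ℝ), EqOn g 0 (⋃ j ∈ (Finset.range n).erase i, B j) ∧ EqOn g 1 (B i) ∧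
      ∀ x, g x ∈ Icc (0 : ℝ) 1 := by
    intro i
    refine exists_continuous_zero_one_of_isClosed
      ((Finset.range n).erase i |>.finite_toSet.isClosed_biUnion fun j _ => hB j) (hB i) ?_
    rw [disjoint_iUnion₂_left]
    intro j hj
    exact hd _ _ (Finset.ne_of_mem_erase hj)
  choose g hg0 hg1 hg using hg
  set G : C(Y, ℝ) := ∑ j ∈ Finset.range n, g j with hG
  have hGapp : ∀ x, G x = ∑ j ∈ Finset.range n, g j x := fun x => by
    rw [hG, ContinuousMap.sum_apply]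
  set M : Y → ℝ := fun x => max 1 (G x) with hM
  have hMpos : ∀ x, 0 < M x := fun x => lt_of_lt_of_le one_pos (le_max_left _ _)
  have hMcont : Continuous M := continuous_const.max G.continuous
  set q : ℕ → C(Y, ℝ) := fun i => ⟨fun x => g i x / M x,
    (g i).continuous.div hMcont fun x => (hMpos x).ne'⟩ with hq
  have hqapp : ∀ i x, q i x = g i x / M x := fun i x => rfl
  have hqnn : ∀ i x, 0 ≤ q i x := fun i x => div_nonneg (hg i x).1 (hMpos x).le
  have hqone : ∀ i ∈ Finset.range n, ∀ x ∈ B i, 1 ≤ q i x := by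
    intro i hi x hx
    have hgi : g i x = 1 := hg1 i hx
    have hGx : G x = 1 := by
      rw [hGapp, Finset.sum_eq_single_of_mem i hi, hgi]
      intro j hj hji
      refine hg0 j ?_
      exact mem_biUnion (Finset.mem_coe.2 (Finset.mem_erase.2 ⟨hji.symm, hi⟩)) hx
    rw [hqapp, hgi, hM]
    simp [hGx]
  have hsum : Λ (∑ i ∈ Finset.range n, q i) ≤ 1 := by
    have : 0 ≤ Λ (1 - ∑ i ∈ Finset.range n, q i) := by
      refine hpos _ fun x => ?_
      rw [ContinuousMap.sub_apply, ContinuousMap.sum_apply, ContinuousMap.one_apply]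
      have : ∑ i ∈ Finset.range n, q i x = G x / M x := by
        simp only [hqapp]
        rw [← Finset.sum_div, hGapp]
      rw [this, sub_nonneg, div_le_one (hMpos x)]
      exact le_max_right _ _
    rw [map_sub, h1] at this
    linarith
  rw [map_sum] at hsum
  have hge : (n : ℝ) * c ≤ ∑ i ∈ Finset.range n, Λ (q i) := by
    have : ∑ _i ∈ Finset.range n, c ≤ ∑ i ∈ Finset.range n, Λ (q i) :=
      Finset.sum_le_sum fun i hi => hmass i _ (hqnn i) (hqone i hi)
    simpa using this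
  linarith

theorem totally_bounded_of_frag (T : S → Y → Y) (hcont : ∀ s, Continuous (T s))
    (d : Y → Y → ℝ) (d_comm : ∀ x y, d x y = d y x) (d_tri : ∀ x y z, d x z ≤ d x y + d y z)
    (d_closed : ∀ a r, IsClosed {z | d z a ≤ r})
    (d_ne : ∀ s x y, d (T s x) (T s y) ≤ d x y)
    (K : Set Y) (hK : IsClosed K) (hinv : ∀ s, ∀ x ∈ K, T s x ∈ K)
    (hdense : ∀ x ∈ K, K ⊆ closure (range fun s => T s x))
    (Λ : C(Y, ℝ) →ₗ[ℝ] ℝ) (h1 : Λ 1 = 1) (hpos : ∀ h : C(Y, ℝ), (∀ x ∈ K, 0 ≤ h x) → 0 ≤ Λ h)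
    (hinvΛ : ∀ (a : S) (h : C(Y, ℝ)), Λ (h.comp ⟨T a, hcont a⟩) = Λ h)
    (hsupp : ∀ h : C(Y, ℝ), (∀ y, 0 ≤ h y) → (∃ x ∈ K, 0 < h x) → 0 < Λ h)
    (hfrag : ∀ ε > 0, ∃ U : Set Y, IsOpen U ∧ (U ∩ K).Nonempty ∧
      ∀ x ∈ U ∩ K, ∀ y ∈ U ∩ K, d x y ≤ ε) :
    ∀ ε > 0, ∃ F : Finset Y, (∀ x ∈ F, x ∈ K) ∧ ∀ k ∈ K, ∃ x ∈ F, d k x ≤ ε := by
  intro ε hε
  obtain ⟨U, hU, ⟨a, haU, haK⟩, hUd⟩ := hfrag (ε / 2) (by positivity)
  set A := closure (U ∩ K) with hA
  have hAK : A ⊆ K := closure_minimal inter_subset_right hK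
  have hUA : U ∩ K ⊆ A := subset_closure
  have hAd : ∀ x ∈ A, ∀ y ∈ A, d x y ≤ ε / 2 := by
    have s1 : ∀ y ∈ U ∩ K, ∀ x ∈ A, d x y ≤ ε / 2 := by
      intro y hy x hx
      have : A ⊆ {z | d z y ≤ ε / 2} := closure_minimal (fun z hz => hUd z hz y hy) (d_closed _ _)
      exact this hx
    intro x hx y hy
    have : A ⊆ {z | d z x ≤ ε / 2} :=
      closure_minimal (fun z hz => by
        show d z x ≤ ε / 2
        rw [d_comm]; exact s1 z hz x hx) (d_closed _ _)
    rw [d_comm]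
    exact this hy
  have haA : a ∈ A := hUA ⟨haU, haK⟩
  -- bump
  obtain ⟨h0, hh0, hh1, hh⟩ := exists_continuous_zero_one_of_isClosed (hK.inter hU.isClosed_compl)
    (isClosed_singleton (x := a)) (disjoint_singleton_right.2 fun h => h.2 haU)
  have hc0 : 0 < Λ h0 := hsupp h0 (fun y => (hh y).1) ⟨a, haK, by
    rw [hh1 (mem_singleton a)]; exact zero_lt_one⟩
  have hmass : ∀ (s : S) (h : C(Y, ℝ)), (∀ x, 0 ≤ h x) → (∀ x ∈ T s '' A, 1 ≤ h x) →
      Λ h0 ≤ Λ h := by
    intro s h hh' hx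
    have : 0 ≤ Λ (h.comp ⟨T s, hcont s⟩ - h0) := by
      refine hpos _ fun k hk => ?_
      rw [ContinuousMap.sub_apply, sub_nonneg]
      show h0 k ≤ h (T s k)
      by_cases hkU : k ∈ U
      · exact (hh k).2.trans (hx _ (mem_image_of_mem _ (hUA ⟨hkU, hk⟩)))
      · have : h0 k = 0 := hh0 ⟨hk, hkU⟩
        rw [this]
        exact hh' _
    rw [map_sub, hinvΛ] at this
    linarith
  by_contra hcon
  push Not at hcon
  classical
  obtain ⟨s, -, hs⟩ := exists_seq_of_forall_finset_exists (fun _ : S => True)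
    (fun s t => Disjoint (T s '' A) (T t '' A)) (by
      intro F _
      obtain ⟨k, hk, hkF⟩ := hcon (F.image fun t => T t a) (by
        intro x hx
        obtain ⟨t, _, rfl⟩ := Finset.mem_image.1 hx
        exact hinv t a haK)
      have hopen : IsOpen (⋂ x ∈ F.image fun t => T t a, {z | d z x ≤ ε}ᶜ) :=
        isOpen_biInter_finset fun x _ => (d_closed x ε).isOpen_compl
      obtain ⟨_, hz, ⟨t, rfl⟩⟩ := mem_closure_iff.1 (hdense a haK hk) _ hopen (by
        simp only [mem_iInter, mem_compl_iff, mem_ofPred_eq, not_le]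
        exact hkF)
      refine ⟨t, trivial, fun x hx => ?_⟩
      rw [Set.disjoint_left]
      rintro _ ⟨u, hu, rfl⟩ ⟨v, hv, hvu⟩
      simp only [mem_iInter, mem_compl_iff, mem_ofPred_eq, not_le] at hz
      have e1 := hz (T x a) (Finset.mem_image_of_mem _ hx)
      have e2 := d_tri (T t a) (T t v) (T x a)
      have e3 := d_ne t a v
      have e4 := d_ne x u a
      have e5 := hAd a haA v hv
      have e6 := hAd u hu a haA
      rw [hvu] at e2
      rw [hvu] at e3
      linarith)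
  exact no_disjoint Λ h1 (fun h hx => hpos h fun x _ => hx x) (fun n => T (s n) '' A)
    (fun n => (isClosed_closure.isCompact.image (hcont _)).isClosed) hs _ hc0
    (fun n => hmass (s n))

end Pool.Agent.Helper80.NFix
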